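import Mathlib

/-!
Tilings of finite sets of points of the triangular lattice by small triangles.
-/

namespace Pool.Agent.Lib.MP_243357_co

/-- Points of the triangular lattice; two points are adjacent when they differ by
`(0,1)`, `(1,0)` or `(1,1)` up to sign. -/
abbrev Pt := ℤ × ℤ

/-- The small triangle `(i,j), (i+1,j), (i+1,j+1)`. -/
def up (p : Pt) : Finset Pt := {p, (p.1 + 1, p.2), (p.1 + 1, p.2 + 1)}

/-- The small triangle `(i,j), (i,j+1), (i+1,j+1)`. -/
def dn (p : Pt) : Finset Pt := {p, (p.1, p.2 + 1), (p.1 + 1, p.2 + 1)}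

/-- A small triangle. -/
def IsSmall (t : Finset Pt) : Prop := ∃ p : Pt, t = up p ∨ t = dn p

/-- `P` is a partition of `R` into small triangles. -/
def IsTiling (R : Finset Pt) (P : Finset (Finset Pt)) : Prop :=
  (∀ t ∈ P, IsSmall t ∧ t ⊆ R) ∧ ∀ p ∈ R, ∃! t, t ∈ P ∧ p ∈ t

/-- The triangular array of side `N`: the points `(i,j)` with `0 ≤ j ≤ i ≤ N - 1`. -/
noncomputable def Delta (N : ℕ) : Finset Pt :=
  (Finset.Ico (0 : ℤ) N ×ˢ Finset.Ico (0 : ℤ) N).filter fun p => p.2 ≤ p.1

/-- The number of tilings of a finite set of points. -/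
noncomputable def tau (R : Finset Pt) : ℕ := {P : Finset (Finset Pt) | IsTiling R P}.ncard

/-- The number of tilings of the triangular array. -/
noncomputable def T (N : ℕ) : ℕ := tau (Delta N)

/-- The admissible side lengths. -/
def Admissible (N : ℕ) : Prop := N % 12 = 0 ∨ N % 12 = 2 ∨ N % 12 = 9 ∨ N % 12 = 11

theorem mem_up (p q : Pt) : q ∈ up p ↔ q = p ∨ q = (p.1 + 1, p.2) ∨ q = (p.1 + 1, p.2 + 1) := by
  simp [up]

theorem mem_dn (p q : Pt) : q ∈ dn p ↔ q = p ∨ q = (p.1, p.2 + 1) ∨ q = (p.1 + 1, p.2 + 1) := by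
  simp [dn]

theorem self_mem_up (p : Pt) : p ∈ up p := by simp [mem_up]
theorem self_mem_dn (p : Pt) : p ∈ dn p := by simp [mem_dn]

theorem up_ne_dn (p : Pt) : up p ≠ dn p := by
  intro h
  have h1 : (p.1 + 1, p.2) ∈ dn p := h ▸ (by simp [mem_up])
  rw [mem_dn] at h1
  rcases h1 with h1 | h1 | h1
  · have := congrArg Prod.fst h1; simp at this
  · have := congrArg Prod.fst h1; simp at this
  · have := congrArg Prod.snd h1; simp at this

theorem IsSmall.nonempty {t : Finset Pt} (h : IsSmall t) : t.Nonempty := by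
  obtain ⟨p, rfl | rfl⟩ := h
  · exact ⟨p, self_mem_up p⟩
  · exact ⟨p, self_mem_dn p⟩

theorem card_up (p : Pt) : (up p).card = 3 := by
  unfold up
  rw [Finset.card_insert_of_notMem, Finset.card_insert_of_notMem, Finset.card_singleton]
  · simp
  · simp only [Finset.mem_insert, Finset.mem_singleton, not_or]
    refine ⟨?_, ?_⟩ <;> intro h
    · have := congrArg Prod.fst h; simp at this
    · have := congrArg Prod.fst h; simp at this

theorem card_dn (p : Pt) : (dn p).card = 3 := by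
  unfold dn
  rw [Finset.card_insert_of_notMem, Finset.card_insert_of_notMem, Finset.card_singleton]
  · simp only [Finset.mem_singleton]
    intro h
    have := congrArg Prod.fst h; simp at this
  · simp only [Finset.mem_insert, Finset.mem_singleton, not_or]
    refine ⟨?_, ?_⟩ <;> intro h
    · have := congrArg Prod.snd h; simp at this
    · have := congrArg Prod.fst h; simp at this

theorem finite_tilings (R : Finset Pt) : {P : Finset (Finset Pt) | IsTiling R P}.Finite := by
  refine (R.powerset.powerset : Finset (Finset (Finset Pt))).finite_toSet.subset ?_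
  intro P hP
  simp only [Finset.coe_powerset, Set.mem_preimage, Set.mem_powerset_iff]
  intro t ht
  have := (hP.1 t ht).2
  simpa using this

/-- The tiles of a tiling are determined by a point. -/
theorem IsTiling.eq_of_mem {R : Finset Pt} {P : Finset (Finset Pt)} (h : IsTiling R P)
    {s t : Finset Pt} (hs : s ∈ P) (ht : t ∈ P) {p : Pt} (hps : p ∈ s) (hpt : p ∈ t) : s = t := by
  have hpR : p ∈ R := (h.1 s hs).2 hps
  exact (h.2 p hpR).unique ⟨hs, hps⟩ ⟨ht, hpt⟩

theorem IsTiling.union {R₁ R₂ : Finset Pt} (hd : Disjoint R₁ R₂) {P₁ P₂ : Finset (Finset Pt)}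
    (h₁ : IsTiling R₁ P₁) (h₂ : IsTiling R₂ P₂) : IsTiling (R₁ ∪ R₂) (P₁ ∪ P₂) := by
  refine ⟨?_, ?_⟩
  · intro t ht
    rcases Finset.mem_union.1 ht with ht | ht
    · exact ⟨(h₁.1 t ht).1, (h₁.1 t ht).2.trans Finset.subset_union_left⟩
    · exact ⟨(h₂.1 t ht).1, (h₂.1 t ht).2.trans Finset.subset_union_right⟩
  · intro p hp
    rcases Finset.mem_union.1 hp with hp | hp
    · obtain ⟨t, ⟨ht, hpt⟩, hu⟩ := h₁.2 p hp
      refine ⟨t, ⟨Finset.mem_union_left _ ht, hpt⟩, ?_⟩
      rintro s ⟨hs, hps⟩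
      rcases Finset.mem_union.1 hs with hs | hs
      · exact hu s ⟨hs, hps⟩
      · exact absurd hp (Finset.disjoint_right.1 hd ((h₂.1 s hs).2 hps))
    · obtain ⟨t, ⟨ht, hpt⟩, hu⟩ := h₂.2 p hp
      refine ⟨t, ⟨Finset.mem_union_right _ ht, hpt⟩, ?_⟩
      rintro s ⟨hs, hps⟩
      rcases Finset.mem_union.1 hs with hs | hs
      · exact absurd hp (Finset.disjoint_left.1 hd ((h₁.1 s hs).2 hps))
      · exact hu s ⟨hs, hps⟩

theorem tau_mul_le {R₁ R₂ : Finset Pt} (hd : Disjoint R₁ R₂) :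
    tau R₁ * tau R₂ ≤ tau (R₁ ∪ R₂) := by
  unfold tau
  rw [← Set.ncard_prod]
  refine Set.ncard_le_ncard_of_injOn (fun x => x.1 ∪ x.2) ?_ ?_ (finite_tilings _)
  · rintro ⟨P₁, P₂⟩ ⟨h₁, h₂⟩
    exact IsTiling.union hd h₁ h₂
  · rintro ⟨P₁, P₂⟩ ⟨h₁, h₂⟩ ⟨Q₁, Q₂⟩ ⟨g₁, g₂⟩ h
    simp only [Set.mem_ofPred_eq] at h₁ h₂ g₁ g₂ h
    have key : ∀ {A B A' B' : Finset (Finset Pt)}, IsTiling R₁ A → IsTiling R₂ B →
        IsTiling R₁ A' → IsTiling R₂ B' → A ∪ B = A' ∪ B' → A ⊆ A' ∧ B ⊆ B' := by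
      intro A B A' B' hA hB hA' hB' hAB
      refine ⟨?_, ?_⟩
      · intro t ht
        have : t ∈ A' ∪ B' := hAB ▸ Finset.mem_union_left _ ht
        rcases Finset.mem_union.1 this with h' | h'
        · exact h'
        · obtain ⟨p, hp⟩ := (hA.1 t ht).1.nonempty
          exact absurd ((hB'.1 t h').2 hp) (Finset.disjoint_left.1 hd ((hA.1 t ht).2 hp))
      · intro t ht
        have : t ∈ A' ∪ B' := hAB ▸ Finset.mem_union_right _ ht
        rcases Finset.mem_union.1 this with h' | h'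
        · obtain ⟨p, hp⟩ := (hB.1 t ht).1.nonempty
          exact absurd ((hA'.1 t h').2 hp) (Finset.disjoint_right.1 hd ((hB.1 t ht).2 hp))
        · exact h'
    have a := key h₁ h₂ g₁ g₂ h
    have b := key g₁ g₂ h₁ h₂ h.symm
    exact Prod.ext (Finset.Subset.antisymm a.1 b.1) (Finset.Subset.antisymm a.2 b.2)

/-- An injective map which sends small triangles to small triangles does not decrease the
number of tilings. -/
theorem tau_le_image (f : Pt → Pt) (hf : Function.Injective f)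
    (hs : ∀ t, IsSmall t → IsSmall (t.image f)) (R : Finset Pt) :
    tau R ≤ tau (R.image f) := by
  unfold tau
  refine Set.ncard_le_ncard_of_injOn (fun P => P.image (fun t => t.image f)) ?_ ?_
    (finite_tilings _)
  · intro P hP
    refine ⟨?_, ?_⟩
    · intro t ht
      obtain ⟨s, hsP, rfl⟩ := Finset.mem_image.1 ht
      exact ⟨hs s (hP.1 s hsP).1, Finset.image_subset_image (hP.1 s hsP).2⟩
    · intro q hq
      obtain ⟨p, hp, rfl⟩ := Finset.mem_image.1 hq
      obtain ⟨t, ⟨ht, hpt⟩, hu⟩ := hP.2 p hp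
      refine ⟨t.image f, ⟨Finset.mem_image_of_mem _ ht, Finset.mem_image_of_mem _ hpt⟩, ?_⟩
      rintro s ⟨hsP, hps⟩
      obtain ⟨s', hs', rfl⟩ := Finset.mem_image.1 hsP
      obtain ⟨p', hp', hpp⟩ := Finset.mem_image.1 hps
      have := hf hpp
      subst this
      rw [hu s' ⟨hs', hp'⟩]
  · intro P _ Q _ h
    exact Finset.image_injective (Finset.image_injective hf) h

theorem image_translate_up (v p : Pt) : (up p).image (fun q => q + v) = up (p + v) := by
  ext q
  simp only [up, Finset.image_insert, Finset.image_singleton, Finset.mem_insert,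
    Finset.mem_singleton, Prod.ext_iff, Prod.fst_add, Prod.snd_add]
  constructor <;> intro h <;> rcases h with h | h | h <;> (simp only [add_assoc, add_comm] at h ⊢; tauto)

theorem image_translate_dn (v p : Pt) : (dn p).image (fun q => q + v) = dn (p + v) := by
  ext q
  simp only [dn, Finset.image_insert, Finset.image_singleton, Finset.mem_insert,
    Finset.mem_singleton, Prod.ext_iff, Prod.fst_add, Prod.snd_add]
  constructor <;> intro h <;> rcases h with h | h | h <;> (simp only [add_assoc, add_comm] at h ⊢; tauto)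

theorem tau_translate (v : Pt) (R : Finset Pt) : tau R ≤ tau (R.image fun q => q + v) := by
  refine tau_le_image _ (add_left_injective v) ?_ R
  rintro t ⟨p, rfl | rfl⟩
  · exact ⟨p + v, Or.inl (image_translate_up v p)⟩
  · exact ⟨p + v, Or.inr (image_translate_dn v p)⟩

theorem image_reflect_up (v p : Pt) :
    (up p).image (fun q => v - q) = dn (v.1 - p.1 - 1, v.2 - p.2 - 1) := by
  ext q
  simp only [up, dn, Finset.image_insert, Finset.image_singleton, Finset.mem_insert,
    Finset.mem_singleton, Prod.ext_iff, Prod.fst_sub, Prod.snd_sub]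
  constructor
  · rintro (⟨h1, h2⟩ | ⟨h1, h2⟩ | ⟨h1, h2⟩)
    · exact Or.inr (Or.inr ⟨by omega, by omega⟩)
    · exact Or.inr (Or.inl ⟨by omega, by omega⟩)
    · exact Or.inl ⟨by omega, by omega⟩
  · rintro (⟨h1, h2⟩ | ⟨h1, h2⟩ | ⟨h1, h2⟩)
    · exact Or.inr (Or.inr ⟨by omega, by omega⟩)
    · exact Or.inr (Or.inl ⟨by omega, by omega⟩)
    · exact Or.inl ⟨by omega, by omega⟩

theorem image_reflect_dn (v p : Pt) :
    (dn p).image (fun q => v - q) = up (v.1 - p.1 - 1, v.2 - p.2 - 1) := by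
  ext q
  simp only [up, dn, Finset.image_insert, Finset.image_singleton, Finset.mem_insert,
    Finset.mem_singleton, Prod.ext_iff, Prod.fst_sub, Prod.snd_sub]
  constructor
  · rintro (⟨h1, h2⟩ | ⟨h1, h2⟩ | ⟨h1, h2⟩)
    · exact Or.inr (Or.inr ⟨by omega, by omega⟩)
    · exact Or.inr (Or.inl ⟨by omega, by omega⟩)
    · exact Or.inl ⟨by omega, by omega⟩
  · rintro (⟨h1, h2⟩ | ⟨h1, h2⟩ | ⟨h1, h2⟩)
    · exact Or.inr (Or.inr ⟨by omega, by omega⟩)
    · exact Or.inr (Or.inl ⟨by omega, by omega⟩)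
    · exact Or.inl ⟨by omega, by omega⟩

theorem tau_reflect (v : Pt) (R : Finset Pt) : tau R ≤ tau (R.image fun q => v - q) := by
  refine tau_le_image _ (sub_right_injective) ?_ R
  rintro t ⟨p, rfl | rfl⟩
  · exact ⟨_, Or.inr (image_reflect_up v p)⟩
  · exact ⟨_, Or.inl (image_reflect_dn v p)⟩

theorem tau_empty : tau ∅ = 1 := by
  unfold tau
  have : {P : Finset (Finset Pt) | IsTiling ∅ P} = {∅} := by
    ext P
    simp only [Set.mem_ofPred_eq, Set.mem_singleton_iff]
    constructor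
    · intro h
      rw [Finset.eq_empty_iff_forall_notMem]
      intro t ht
      obtain ⟨p, hp⟩ := (h.1 t ht).1.nonempty
      exact absurd ((h.1 t ht).2 hp) (Finset.notMem_empty p)
    · rintro rfl
      exact ⟨by simp, by simp⟩
  rw [this, Set.ncard_singleton]

/-- Tilings containing a given small triangle. -/
theorem ncard_with {R t : Finset Pt} (ht : IsSmall t) (htR : t ⊆ R) :
    {P : Finset (Finset Pt) | IsTiling R P ∧ t ∈ P}.ncard = tau (R \ t) := by
  unfold tau
  symm
  refine Set.ncard_congr (fun P _ => insert t P) ?_ ?_ ?_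
  · intro P hP
    simp only [Set.mem_ofPred_eq] at hP ⊢
    have h1 : IsTiling t {t} := by
      refine ⟨?_, ?_⟩
      · intro s hs
        rw [Finset.mem_singleton.1 hs]
        exact ⟨ht, subset_rfl⟩
      · intro p hp
        exact ⟨t, ⟨Finset.mem_singleton_self t, hp⟩, fun s hs => Finset.mem_singleton.1 hs.1⟩
    have h2 := IsTiling.union (Finset.disjoint_sdiff) h1 hP
    rw [Finset.union_sdiff_of_subset htR] at h2
    exact ⟨by rwa [Finset.insert_eq], Finset.mem_insert_self _ _⟩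
  · intro P Q hP hQ h
    simp only [Set.mem_ofPred_eq] at hP hQ
    have hn : ∀ {A : Finset (Finset Pt)}, IsTiling (R \ t) A → t ∉ A := by
      intro A hA hA'
      obtain ⟨p, hp⟩ := ht.nonempty
      exact (Finset.mem_sdiff.1 ((hA.1 t hA').2 hp)).2 hp
    have := congrArg (fun A => A.erase t) h
    simpa [Finset.erase_insert (hn hP), Finset.erase_insert (hn hQ)] using this
  · rintro P ⟨hP, htP⟩
    refine ⟨P.erase t, ?_, Finset.insert_erase htP⟩
    refine ⟨?_, ?_⟩
    · intro s hs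
      obtain ⟨hne, hs⟩ := Finset.mem_erase.1 hs
      refine ⟨(hP.1 s hs).1, ?_⟩
      intro p hp
      rw [Finset.mem_sdiff]
      refine ⟨(hP.1 s hs).2 hp, ?_⟩
      intro hpt
      exact hne (hP.eq_of_mem hs htP hp hpt)
    · intro p hp
      rw [Finset.mem_sdiff] at hp
      obtain ⟨s, ⟨hs, hps⟩, hu⟩ := hP.2 p hp.1
      refine ⟨s, ⟨Finset.mem_erase.2 ⟨?_, hs⟩, hps⟩, ?_⟩
      · rintro rfl
        exact hp.2 hps
      · rintro s' ⟨hs', hps'⟩
        exact hu s' ⟨(Finset.mem_erase.1 hs').2, hps'⟩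

/-- Branching at a point, lower bound. -/
theorem tau_branch_le {R : Finset Pt} {p : Pt} (hu : up p ⊆ R) (hd : dn p ⊆ R) :
    tau (R \ up p) + tau (R \ dn p) ≤ tau R := by
  have hdis : Disjoint {P : Finset (Finset Pt) | IsTiling R P ∧ up p ∈ P}
      {P : Finset (Finset Pt) | IsTiling R P ∧ dn p ∈ P} := by
    rw [Set.disjoint_left]
    rintro P ⟨hP, h1⟩ ⟨_, h2⟩
    exact up_ne_dn p (hP.eq_of_mem h1 h2 (self_mem_up p) (self_mem_dn p))
  rw [← ncard_with ⟨p, Or.inl rfl⟩ hu, ← ncard_with ⟨p, Or.inr rfl⟩ hd,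
    ← Set.ncard_union_eq hdis ((finite_tilings R).subset fun P h => h.1)
      ((finite_tilings R).subset fun P h => h.1)]
  refine Set.ncard_le_ncard ?_ (finite_tilings R)
  rintro P (h | h)
  · exact h.1
  · exact h.1

theorem tau_sdiff_le {R t : Finset Pt} (ht : IsSmall t) (htR : t ⊆ R) :
    tau (R \ t) ≤ tau R := by
  rw [← ncard_with ht htR]
  exact Set.ncard_le_ncard (fun P h => h.1) (finite_tilings R)

end Pool.Agent.Lib.MP_243357_co
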