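import Pool.Agent.Lib.MP_243357_co.Rect

/-!
Existence of the limit of `log T(N) / N ^ 2`.
-/

open Filter Topology

namespace Pool.Agent.Lib.MP_243357_co

theorem lower_ratio {L M : ℕ} (hL0 : 0 < L) (hL : 12 ∣ L) (hM : Admissible M) (hLM : 2 * L ≤ M) :
    (1 / (L : ℝ) - 1 / M) * (1 / L - 2 / M) / 2 * Real.log (tauR L L) ≤
      Real.log (T M) / (M : ℝ) ^ 2 := by
  obtain ⟨l, rfl⟩ := hL
  set L := 12 * l with hLdef
  have hdiv : M / L * L + M % L = M := Nat.div_add_mod' M L
  have hmod : M % L < L := Nat.mod_lt _ hL0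
  have hmod12 : M % L % 12 = M % 12 := Nat.mod_mod_of_dvd M (Dvd.intro l rfl)
  have hadm : Admissible (M % L) := by
    unfold Admissible at hM ⊢
    rw [hmod12]; exact hM
  have hne : M % L ≠ 1 := by
    intro h
    rw [h] at hadm
    unfold Admissible at hadm
    omega
  have hTL : 1 ≤ T L := one_le_T (Or.inl (by omega))
  have key := T_mul_add L (M % L) (M / L) (Dvd.intro l rfl) hTL hne (one_le_T hadm)
  rw [hdiv] at key
  set a := M / L with ha
  have hR1 : 1 ≤ tauR L L := by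
    have := one_le_tauR_mul (2 * l) L (by omega)
    rwa [show 2 * l * 6 = L by omega] at this
  have hlogR : 0 ≤ Real.log (tauR L L) := Real.log_nonneg (by exact_mod_cast hR1)
  have hM0 : (0 : ℝ) < M := by
    have : 0 < M := by omega
    exact_mod_cast this
  have hLr : (0 : ℝ) < L := by exact_mod_cast hL0
  have ha2 : 2 ≤ a := (Nat.le_div_iff_mul_le hL0).2 hLM
  have hlog : ((a * (a - 1) / 2 : ℕ) : ℝ) * Real.log (tauR L L) ≤ Real.log (T M) := by
    rw [← Real.log_pow]
    refine Real.log_le_log (by positivity) ?_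
    exact_mod_cast key
  have hcast : ((a * (a - 1) / 2 : ℕ) : ℝ) = a * (a - 1) / 2 := by
    have heven : 2 ∣ a * (a - 1) := (Nat.even_mul_pred_self a).two_dvd
    rw [Nat.cast_div heven (by norm_num), Nat.cast_mul, Nat.cast_sub (by omega)]
    norm_num
  rw [hcast] at hlog
  have haL : (M : ℝ) - L ≤ a * L := by
    have : (M : ℝ) = a * L + (M % L : ℕ) := by exact_mod_cast hdiv.symm
    have h2 : ((M % L : ℕ) : ℝ) ≤ L := by exact_mod_cast hmod.le
    linarith
  have hLM' : 2 * (L : ℝ) ≤ M := by exact_mod_cast hLM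
  rw [le_div_iff₀ (by positivity)]
  refine le_trans ?_ hlog
  have e : (1 / (L : ℝ) - 1 / M) * (1 / L - 2 / M) / 2 * Real.log (tauR L L) * (M : ℝ) ^ 2 =
      ((M - L) / L) * ((M - 2 * L) / L) / 2 * Real.log (tauR L L) := by
    field_simp
  rw [e]
  refine mul_le_mul_of_nonneg_right ?_ hlogR
  refine div_le_div_of_nonneg_right ?_ (by norm_num)
  have h1 : (M - L) / L ≤ (a : ℝ) := by rw [div_le_iff₀ hLr]; linarith
  have h2 : (M - 2 * L) / L ≤ (a : ℝ) - 1 := by
    rw [div_le_iff₀ hLr]; nlinarith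
  have h3 : 0 ≤ (M - 2 * (L : ℝ)) / L := div_nonneg (by linarith) hLr.le
  have h4 : (0 : ℝ) ≤ a := by positivity
  exact mul_le_mul h1 h2 h3 h4

theorem eventually_lower {L : ℕ} (hL0 : 0 < L) (hL : 12 ∣ L) {x : ℝ}
    (hx : x < Real.log (tauR L L) / (2 * (L : ℝ) ^ 2)) :
    ∀ᶠ M : ℕ in atTop, Admissible M → x < Real.log (T M) / (M : ℝ) ^ 2 := by
  have ht : Tendsto (fun M : ℕ => (1 / (L : ℝ) - 1 / M) * (1 / L - 2 / M) / 2 *
      Real.log (tauR L L)) atTop (𝓝 ((1 / (L : ℝ) - 0) * (1 / L - 0) / 2 *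
      Real.log (tauR L L))) := by
    refine Tendsto.mul_const _ (Tendsto.div_const (Tendsto.mul ?_ ?_) _)
    · exact tendsto_const_nhds.sub (tendsto_const_div_atTop_nhds_zero_nat 1)
    · exact tendsto_const_nhds.sub (tendsto_const_div_atTop_nhds_zero_nat 2)
  have e : (1 / (L : ℝ) - 0) * (1 / L - 0) / 2 * Real.log (tauR L L) =
      Real.log (tauR L L) / (2 * (L : ℝ) ^ 2) := by
    have : (L : ℝ) ≠ 0 := by exact_mod_cast hL0.ne'
    field_simp
    ring
  rw [e] at ht
  filter_upwards [ht.eventually (lt_mem_nhds hx), eventually_ge_atTop (2 * L)] with M h1 h2 h3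
  exact h1.trans_le (lower_ratio hL0 hL h3 h2)

/-- The values `log T(N) / (N (N + 1))` over the admissible side lengths. -/
def triSet : Set ℝ :=
  {x | ∃ N : ℕ, 1 ≤ N ∧ Admissible N ∧ x = Real.log (T N) / (N * (N + 1))}

/-- The values `log tauR(a, b) / (2 a b)` over the parallelograms which have a tiling. -/
def rectSet : Set ℝ :=
  {x | ∃ a b : ℕ, 1 ≤ a ∧ 1 ≤ b ∧ 1 ≤ tauR a b ∧ x = Real.log (tauR a b) / (2 * (a * b))}

theorem triSet_nonempty : triSet.Nonempty :=
  ⟨_, 2, by norm_num, by unfold Admissible; norm_num, rfl⟩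

theorem triSet_le {x : ℝ} (hx : x ∈ triSet) : x ≤ Real.log Real.goldenRatio / 6 := by
  obtain ⟨N, hN, -, rfl⟩ := hx
  have hN' : (0 : ℝ) < N := by exact_mod_cast hN
  rw [div_le_iff₀ (by positivity)]
  exact log_T_le N

/-- The limit constant. -/
noncomputable def cst : ℝ := sSup triSet

theorem isLUB_cst : IsLUB triSet cst :=
  isLUB_csSup triSet_nonempty ⟨_, fun _ hx => triSet_le hx⟩

theorem cst_le : cst ≤ Real.log Real.goldenRatio / 6 := isLUB_cst.2 fun _ hx => triSet_le hx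

theorem cst_nonneg : 0 ≤ cst := by
  have h : Real.log (T 2) / ((2 : ℕ) * ((2 : ℕ) + 1)) ≤ cst :=
    isLUB_cst.1 ⟨2, by norm_num, by unfold Admissible; norm_num, rfl⟩
  have h1 : 0 ≤ Real.log (T 2) := Real.log_nonneg (by exact_mod_cast T_2)
  refine le_trans ?_ h
  positivity

theorem log_T_le_cst {N : ℕ} (hN : Admissible N) : Real.log (T N) ≤ cst * (N * (N + 1)) := by
  rcases Nat.eq_zero_or_pos N with rfl | h0
  · simp [T_0]
  · have h : Real.log (T N) / (N * (N + 1)) ≤ cst := isLUB_cst.1 ⟨N, h0, hN, rfl⟩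
    have hN' : (0 : ℝ) < N := by exact_mod_cast h0
    rwa [div_le_iff₀ (by positivity)] at h

theorem eventually_upper {y : ℝ} (hy : cst < y) :
    ∀ᶠ M : ℕ in atTop, Admissible M → Real.log (T M) / (M : ℝ) ^ 2 < y := by
  have ht : Tendsto (fun M : ℕ => cst * (1 + 1 / M)) atTop (𝓝 (cst * (1 + 0))) :=
    Tendsto.const_mul _ (tendsto_const_nhds.add (tendsto_const_div_atTop_nhds_zero_nat 1))
  rw [add_zero, mul_one] at ht
  filter_upwards [ht.eventually (gt_mem_nhds hy), eventually_ge_atTop 1] with M h1 h2 h3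
  refine lt_of_le_of_lt ?_ h1
  have hM : (0 : ℝ) < M := by exact_mod_cast h2
  rw [div_le_iff₀ (by positivity)]
  refine (log_T_le_cst h3).trans (le_of_eq ?_)
  field_simp

/-- Rectangles give lower bounds through large squares. -/
theorem rect_le_square {a b : ℕ} (ha : 1 ≤ a) (hb : 1 ≤ b) (hR : 1 ≤ tauR a b) :
    Real.log (tauR a b) / (2 * (a * b)) ≤
      Real.log (tauR (12 * b * a) (12 * b * a)) / (2 * ((12 * b * a : ℕ) : ℝ) ^ 2) := by
  have h := tauR_grid (12 * b) (12 * a) a b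
  rw [show 12 * a * b = 12 * b * a by ring] at h
  have hlog : ((12 * b * (12 * a) : ℕ) : ℝ) * Real.log (tauR a b) ≤
      Real.log (tauR (12 * b * a) (12 * b * a)) := by
    rw [← Real.log_pow]
    refine Real.log_le_log (by positivity) ?_
    exact_mod_cast h
  have ha' : (0 : ℝ) < a := by exact_mod_cast ha
  have hb' : (0 : ℝ) < b := by exact_mod_cast hb
  rw [div_le_div_iff₀ (by positivity) (by positivity)]
  push_cast at hlog ⊢
  calc Real.log (tauR a b) * (2 * (12 * b * a) ^ 2)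
      = (12 * b * (12 * a) * Real.log (tauR a b)) * (2 * (a * b)) := by ring
    _ ≤ Real.log (tauR (12 * b * a) (12 * b * a)) * (2 * (a * b)) :=
        mul_le_mul_of_nonneg_right hlog (by positivity)

theorem tri_le_rect {N : ℕ} (hN : 1 ≤ N) (hA : Admissible N) :
    Real.log (T N) / (N * (N + 1)) ≤
      Real.log (tauR N (N + 1)) / (2 * ((N : ℝ) * ((N + 1 : ℕ) : ℝ))) := by
  have h := T_sq_le N
  have hT := one_le_T hA
  have hlog : (2 : ℕ) * Real.log (T N) ≤ Real.log (tauR N (N + 1)) := by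
    rw [← Real.log_pow]
    refine Real.log_le_log (by positivity) ?_
    exact_mod_cast h
  have hN' : (0 : ℝ) < N := by exact_mod_cast hN
  rw [div_le_div_iff₀ (by positivity) (by positivity)]
  push_cast at hlog ⊢
  calc Real.log (T N) * (2 * (N * (N + 1))) = (2 * Real.log (T N)) * (N * (N + 1)) := by ring
    _ ≤ _ := mul_le_mul_of_nonneg_right hlog (by positivity)

theorem one_le_tauR_of_T {N : ℕ} (hA : Admissible N) : 1 ≤ tauR N (N + 1) :=
  (one_le_pow₀ (one_le_T hA)).trans (T_sq_le N)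

theorem square_le_cst {L : ℕ} (hL0 : 0 < L) (hL : 12 ∣ L) :
    Real.log (tauR L L) / (2 * (L : ℝ) ^ 2) ≤ cst := by
  by_contra hlt
  push Not at hlt
  obtain ⟨y, hy1, hy2⟩ := exists_between hlt
  obtain ⟨M₁, h1⟩ := eventually_atTop.1 (eventually_lower hL0 hL hy2)
  obtain ⟨M₂, h2⟩ := eventually_atTop.1 (eventually_upper hy1)
  have hA : Admissible (12 * (M₁ + M₂)) := Or.inl (by omega)
  have a1 := h1 (12 * (M₁ + M₂)) (by omega) hA
  have a2 := h2 (12 * (M₁ + M₂)) (by omega) hA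
  linarith

theorem rect_le_cst {a b : ℕ} (ha : 1 ≤ a) (hb : 1 ≤ b) (hR : 1 ≤ tauR a b) :
    Real.log (tauR a b) / (2 * (a * b)) ≤ cst :=
  (rect_le_square ha hb hR).trans
    (square_le_cst (by positivity) ⟨b * a, by ring⟩)

theorem isLUB_rect : IsLUB rectSet cst := by
  refine ⟨?_, ?_⟩
  · rintro x ⟨a, b, ha, hb, hR, rfl⟩
    exact rect_le_cst ha hb hR
  · intro u hu
    refine isLUB_cst.2 ?_
    rintro x ⟨N, hN, hA, rfl⟩
    refine (tri_le_rect hN hA).trans (hu ?_)
    exact ⟨N, N + 1, hN, by omega, one_le_tauR_of_T hA, rfl⟩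

theorem tendsto_cst :
    Tendsto (fun N : ℕ => Real.log (T N) / (N : ℝ) ^ 2) (atTop ⊓ 𝓟 {N | Admissible N})
      (𝓝 cst) := by
  rw [tendsto_order]
  refine ⟨?_, ?_⟩
  · intro x hx
    rw [eventually_inf_principal]
    obtain ⟨z, ⟨a, b, ha, hb, hR, rfl⟩, hz⟩ :=
      (lt_isLUB_iff isLUB_rect).1 hx
    exact eventually_lower (L := 12 * b * a) (by positivity) ⟨b * a, by ring⟩
      (hz.trans_le (rect_le_square ha hb hR))
  · intro y hy
    rw [eventually_inf_principal]
    exact eventually_upper hy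

theorem plastic_le {ρ : ℝ} (hρ : ρ ^ 3 = ρ + 1) : Real.log ρ / 12 ≤ cst := by
  have h1 : 1 < ρ := by
    by_contra h
    push Not at h
    rcases le_or_gt 0 ρ with h0 | h0
    · nlinarith [mul_nonneg h0 h0, mul_nonneg h0 (sub_nonneg.2 h)]
    · rcases le_or_gt (-1) ρ with h2 | h2
      · nlinarith [mul_nonneg (neg_nonneg.2 h0.le) (neg_nonneg.2 h0.le), sq_nonneg (ρ + 1)]
      · nlinarith [mul_pos (neg_pos.2 h0) (neg_pos.2 h0), sq_nonneg (ρ + 1)]
  have h0 : 0 < ρ := by linarith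
  have hl : 0 < Real.log ρ := Real.log_pos h1
  by_contra hlt
  push Not at hlt
  have hpos : 0 < Real.log ρ - 12 * cst := by linarith
  obtain ⟨n, hn⟩ := exists_nat_gt ((24 * cst + 2 * Real.log ρ) / (Real.log ρ - 12 * cst))
  rw [div_lt_iff₀ hpos] at hn
  have hs := strip_lower h1 hρ n
  have hR : 1 ≤ tauR (n + 2) 6 := one_le_tauR_six' _ (by omega)
  have hR' : (0 : ℝ) < tauR (n + 2) 6 := by exact_mod_cast hR
  have hlog := Real.log_le_log (by positivity) hs
  rw [Real.log_mul hR'.ne' (by positivity), Real.log_pow, Real.log_pow] at hlog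
  have hc := rect_le_cst (a := n + 2) (b := 6) (by omega) (by norm_num) hR
  rw [div_le_iff₀ (by positivity)] at hc
  push_cast at hlog hc
  nlinarith

theorem cst_pos : 0 < cst := by
  have h := tauR_strip 2
  have h1 : 1 ≤ tauR 3 6 := one_le_tauR_six' 3 (by norm_num)
  have h2 : 1 ≤ tauR 2 6 := one_le_tauR_six' 2 (by norm_num)
  have h3 : 2 ≤ tauR 5 6 := by
    norm_num at h
    omega
  have hc := rect_le_cst (a := 5) (b := 6) (by norm_num) (by norm_num) (by omega)
  refine lt_of_lt_of_le ?_ hc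
  have : (1 : ℝ) < tauR 5 6 := by
    have : (2 : ℝ) ≤ tauR 5 6 := by exact_mod_cast h3
    linarith
  have := Real.log_pos this
  positivity

end Pool.Agent.Lib.MP_243357_co
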