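import Pool.Agent.Lib.MP_243357_co.Upper

/-!
Rectangles, assembly of triangles from rectangles and smaller triangles, explicit tilings.
-/

namespace Pool.Agent.Lib.MP_243357_co

/-- The `a` by `b` parallelogram of points, `0 ≤ i < a`, `0 ≤ j < b`. -/
noncomputable def Rect (a b : ℕ) : Finset Pt := Finset.Ico (0 : ℤ) a ×ˢ Finset.Ico (0 : ℤ) b

/-- The number of tilings of the parallelogram. -/
noncomputable def tauR (a b : ℕ) : ℕ := tau (Rect a b)

theorem mem_Rect (a b : ℕ) (p : Pt) :
    p ∈ Rect a b ↔ 0 ≤ p.1 ∧ p.1 < a ∧ 0 ≤ p.2 ∧ p.2 < b := by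
  simp only [Rect, Finset.mem_product, Finset.mem_Ico]
  tauto

theorem mem_image_translate (v : Pt) (R : Finset Pt) (p : Pt) :
    p ∈ R.image (fun q => q + v) ↔ (p.1 - v.1, p.2 - v.2) ∈ R := by
  rw [Finset.mem_image]
  constructor
  · rintro ⟨q, hq, rfl⟩
    simpa using hq
  · intro h
    exact ⟨_, h, by ext <;> simp⟩

theorem mem_image_reflect (v : Pt) (R : Finset Pt) (p : Pt) :
    p ∈ R.image (fun q => v - q) ↔ (v.1 - p.1, v.2 - p.2) ∈ R := by
  rw [Finset.mem_image]
  constructor
  · rintro ⟨q, hq, rfl⟩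
    simpa using hq
  · intro h
    exact ⟨_, h, by ext <;> simp⟩

theorem tauR_add_left (a a' b : ℕ) : tauR a b * tauR a' b ≤ tauR (a + a') b := by
  have hd : Disjoint (Rect a b) ((Rect a' b).image fun q => q + ((a : ℤ), (0 : ℤ))) := by
    rw [Finset.disjoint_left]
    intro p hp hq
    rw [mem_Rect] at hp
    rw [mem_image_translate, mem_Rect] at hq
    simp only at hq
    omega
  have hu : Rect (a + a') b = Rect a b ∪ ((Rect a' b).image fun q => q + ((a : ℤ), (0 : ℤ))) := by
    ext p
    rw [Finset.mem_union, mem_image_translate, mem_Rect, mem_Rect, mem_Rect]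
    simp only
    push_cast
    omega
  unfold tauR
  rw [hu]
  exact (Nat.mul_le_mul_left _ (tau_translate _ _)).trans (tau_mul_le hd)

theorem tauR_add_right (a b b' : ℕ) : tauR a b * tauR a b' ≤ tauR a (b + b') := by
  have hd : Disjoint (Rect a b) ((Rect a b').image fun q => q + ((0 : ℤ), (b : ℤ))) := by
    rw [Finset.disjoint_left]
    intro p hp hq
    rw [mem_Rect] at hp
    rw [mem_image_translate, mem_Rect] at hq
    simp only at hq
    omega
  have hu : Rect a (b + b') = Rect a b ∪ ((Rect a b').image fun q => q + ((0 : ℤ), (b : ℤ))) := by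
    ext p
    rw [Finset.mem_union, mem_image_translate, mem_Rect, mem_Rect, mem_Rect]
    simp only
    push_cast
    omega
  unfold tauR
  rw [hu]
  exact (Nat.mul_le_mul_left _ (tau_translate _ _)).trans (tau_mul_le hd)

theorem tauR_zero_left (b : ℕ) : tauR 0 b = 1 := by
  have : Rect 0 b = ∅ := by
    rw [Finset.eq_empty_iff_forall_notMem]
    intro p hp
    rw [mem_Rect] at hp
    push_cast at hp
    omega
  rw [tauR, this, tau_empty]

theorem tauR_zero_right (a : ℕ) : tauR a 0 = 1 := by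
  have : Rect a 0 = ∅ := by
    rw [Finset.eq_empty_iff_forall_notMem]
    intro p hp
    rw [mem_Rect] at hp
    push_cast at hp
    omega
  rw [tauR, this, tau_empty]

theorem tauR_mul_left (k a b : ℕ) : tauR a b ^ k ≤ tauR (k * a) b := by
  induction k with
  | zero => rw [pow_zero, zero_mul, tauR_zero_left]
  | succ k ih =>
    rw [pow_succ, Nat.succ_mul]
    exact (Nat.mul_le_mul_right _ ih).trans (tauR_add_left _ _ _)

theorem tauR_mul_right (k a b : ℕ) : tauR a b ^ k ≤ tauR a (k * b) := by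
  induction k with
  | zero => rw [pow_zero, zero_mul, tauR_zero_right]
  | succ k ih =>
    rw [pow_succ, Nat.succ_mul]
    exact (Nat.mul_le_mul_right _ ih).trans (tauR_add_right _ _ _)

theorem tauR_grid (k l a b : ℕ) : tauR a b ^ (k * l) ≤ tauR (k * a) (l * b) := by
  rw [pow_mul]
  exact (Nat.pow_le_pow_left (tauR_mul_left k a b) l).trans (tauR_mul_right _ _ _)

/-- A triangle from two smaller triangles and a rectangle. -/
theorem T_add (L M : ℕ) : T L * T M * tauR M L ≤ T (L + M) := by
  have hd1 : Disjoint (Delta L) ((Delta M).image fun q => q + ((L : ℤ), (L : ℤ))) := by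
    rw [Finset.disjoint_left]
    intro p hp hq
    rw [mem_Delta] at hp
    rw [mem_image_translate, mem_Delta] at hq
    simp only at hq
    omega
  have hd2 : Disjoint (Delta L ∪ ((Delta M).image fun q => q + ((L : ℤ), (L : ℤ))))
      ((Rect M L).image fun q => q + ((L : ℤ), (0 : ℤ))) := by
    rw [Finset.disjoint_left]
    intro p hp hq
    rw [Finset.mem_union, mem_Delta, mem_image_translate, mem_Delta] at hp
    rw [mem_image_translate, mem_Rect] at hq
    simp only at hp hq
    omega
  have hu : Delta (L + M) = Delta L ∪ ((Delta M).image fun q => q + ((L : ℤ), (L : ℤ))) ∪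
      ((Rect M L).image fun q => q + ((L : ℤ), (0 : ℤ))) := by
    ext p
    rw [Finset.mem_union, Finset.mem_union, mem_image_translate, mem_image_translate, mem_Delta,
      mem_Delta, mem_Delta, mem_Rect]
    simp only
    push_cast
    omega
  unfold T tauR
  rw [hu]
  refine le_trans (Nat.mul_le_mul ?_ (tau_translate ((L : ℤ), (0 : ℤ)) _)) (tau_mul_le hd2)
  exact (Nat.mul_le_mul_left _ (tau_translate ((L : ℤ), (L : ℤ)) _)).trans (tau_mul_le hd1)

/-- Two triangles make a rectangle. -/
theorem T_sq_le (N : ℕ) : T N ^ 2 ≤ tauR N (N + 1) := by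
  have hd : Disjoint (Delta N) ((Delta N).image fun q => ((N : ℤ) - 1, (N : ℤ)) - q) := by
    rw [Finset.disjoint_left]
    intro p hp hq
    rw [mem_Delta] at hp
    rw [mem_image_reflect, mem_Delta] at hq
    simp only at hq
    omega
  have hu : Rect N (N + 1) = Delta N ∪ ((Delta N).image fun q => ((N : ℤ) - 1, (N : ℤ)) - q) := by
    ext p
    rw [Finset.mem_union, mem_image_reflect, mem_Delta, mem_Delta, mem_Rect]
    simp only
    push_cast
    omega
  unfold T tauR
  rw [hu, sq]
  exact (Nat.mul_le_mul_left _ (tau_reflect _ _)).trans (tau_mul_le hd)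

/-- Tiles given by an orientation and a point. -/
def tile (x : Bool × ℤ × ℤ) : Finset Pt := if x.1 then up x.2 else dn x.2

theorem isSmall_tile (x : Bool × ℤ × ℤ) : IsSmall (tile x) := by
  unfold tile
  split_ifs
  · exact ⟨_, Or.inl rfl⟩
  · exact ⟨_, Or.inr rfl⟩

/-- Check a list of tiles. -/
def chk : List (Bool × ℤ × ℤ) → Finset Pt → Bool
  | [], R => decide (R = ∅)
  | x :: l, R => decide (tile x ⊆ R) && chk l (R \ tile x)

theorem one_le_tau_of_chk (l : List (Bool × ℤ × ℤ)) (R : Finset Pt) (h : chk l R = true) :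
    1 ≤ tau R := by
  induction l generalizing R with
  | nil =>
    simp only [chk, decide_eq_true_eq] at h
    rw [h, tau_empty]
  | cons x l ih =>
    simp only [chk, Bool.and_eq_true, decide_eq_true_eq] at h
    exact (ih _ h.2).trans (tau_sdiff_le (isSmall_tile x) h.1)

theorem tauR_2_3 : 1 ≤ tauR 2 3 :=
  one_le_tau_of_chk [(true, 0, 0), (false, 0, 1)] _ (by decide +kernel)

theorem tauR_3_2 : 1 ≤ tauR 3 2 :=
  one_le_tau_of_chk [(false, 0, 0), (true, 1, 0)] _ (by decide +kernel)

theorem tau_2_6_sdiff : 1 ≤ tau (Rect 2 6 \ up (0, 0)) :=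
  one_le_tau_of_chk [(false, 0, 1), (true, 0, 3), (false, 0, 4)] _ (by decide +kernel)

theorem tau_3_6_sdiff : 1 ≤ tau (Rect 3 6 \ dn (0, 0)) :=
  one_le_tau_of_chk [(true, 1, 0), (false, 0, 2), (true, 1, 2), (false, 0, 4), (true, 1, 4)] _
    (by decide +kernel)

theorem T_2 : 1 ≤ T 2 := by
  unfold T Delta
  exact one_le_tau_of_chk [(true, 0, 0)] _ (by decide +kernel)

theorem T_9 : 1 ≤ T 9 := by
  unfold T Delta
  exact one_le_tau_of_chk [(true, 0, 0), (true, 2, 0), (false, 2, 1), (true, 3, 3), (true, 4, 0),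
    (false, 4, 1), (false, 5, 3), (true, 5, 5), (false, 6, 0), (false, 6, 2), (true, 7, 0),
    (true, 7, 2), (true, 7, 4), (false, 7, 5), (true, 7, 7)] _ (by decide +kernel)

theorem T_12 : 1 ≤ T 12 := by
  unfold T Delta
  exact one_le_tau_of_chk [(true, 0, 0), (true, 2, 0), (false, 2, 1), (true, 3, 3), (true, 4, 0),
    (false, 4, 1), (true, 5, 3), (false, 5, 4), (true, 6, 0), (false, 6, 1), (true, 6, 6),
    (true, 7, 3), (false, 7, 4), (true, 8, 0), (false, 8, 1), (false, 8, 6), (true, 8, 8),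
    (false, 9, 3), (false, 9, 5), (true, 10, 0), (false, 10, 1), (true, 10, 3), (true, 10, 5),
    (true, 10, 7), (false, 10, 8), (true, 10, 10)] _ (by decide +kernel)

theorem T_0 : T 0 = 1 := by
  have : Delta 0 = ∅ := by
    ext p; rw [mem_Delta]; simp; intros; omega
  rw [T, this, tau_empty]

theorem one_le_tauR_six (n : ℕ) (hn : n ≠ 1) : 1 ≤ tauR 6 n := by
  induction n using Nat.strong_induction_on with
  | _ n ih =>
    match n, hn with
    | 0, _ => rw [tauR_zero_right]
    | 2, _ => exact (one_le_pow₀ tauR_3_2).trans (tauR_mul_left 2 3 2)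
    | 3, _ => exact (one_le_pow₀ tauR_2_3).trans (tauR_mul_left 3 2 3)
    | n + 4, _ =>
      have h1 := ih (n + 2) (by omega) (by omega)
      have h2 := ih 2 (by omega) (by omega)
      exact (Nat.mul_le_mul h1 h2).trans (tauR_add_right _ _ _)

theorem one_le_tauR_six' (n : ℕ) (hn : n ≠ 1) : 1 ≤ tauR n 6 := by
  induction n using Nat.strong_induction_on with
  | _ n ih =>
    match n, hn with
    | 0, _ => rw [tauR_zero_left]
    | 2, _ => exact (one_le_pow₀ tauR_2_3).trans (tauR_mul_right 2 2 3)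
    | 3, _ => exact (one_le_pow₀ tauR_3_2).trans (tauR_mul_right 3 3 2)
    | n + 4, _ =>
      have h1 := ih (n + 2) (by omega) (by omega)
      have h2 := ih 2 (by omega) (by omega)
      exact (Nat.mul_le_mul h1 h2).trans (tauR_add_left _ _ _)

theorem one_le_tauR_mul (k n : ℕ) (hn : n ≠ 1) : 1 ≤ tauR (k * 6) n :=
  (one_le_pow₀ (one_le_tauR_six n hn)).trans (tauR_mul_left k 6 n)

theorem T_11 : 1 ≤ T 11 := by
  have h := T_add 9 2
  have h1 : 1 ≤ tauR 2 9 := (one_le_pow₀ tauR_2_3).trans (tauR_mul_right 3 2 3)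
  exact (Nat.mul_le_mul (Nat.mul_le_mul T_9 T_2) h1).trans h

/-- Adding a multiple of twelve. -/
theorem T_mul_add (L r a : ℕ) (hL : 12 ∣ L) (hTL : 1 ≤ T L) (hr : r ≠ 1) (hTr : 1 ≤ T r) :
    tauR L L ^ (a * (a - 1) / 2) ≤ T (a * L + r) := by
  obtain ⟨l, rfl⟩ := hL
  have hrect : 1 ≤ tauR (12 * l) r := by
    have := one_le_tauR_mul (2 * l) r hr
    rwa [show 2 * l * 6 = 12 * l by ring] at this
  induction a with
  | zero => simpa using hTr
  | succ a ih =>
    have h1 := T_add (a * (12 * l) + r) (12 * l)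
    have h2 : tauR (12 * l) (12 * l) ^ a * tauR (12 * l) r ≤ tauR (12 * l) (a * (12 * l) + r) :=
      (Nat.mul_le_mul_right _ (tauR_mul_right a _ _)).trans (tauR_add_right _ _ _)
    have h3 : (a + 1) * (a + 1 - 1) / 2 = a * (a - 1) / 2 + a := by
      rw [Nat.add_sub_cancel]
      rcases a with _ | a
      · rfl
      · rw [Nat.add_sub_cancel]
        have : (a + 1 + 1) * (a + 1) = (a + 1) * a + (a + 1) * 2 := by ring
        rw [this, Nat.add_mul_div_right _ _ (by norm_num)]
    have h4 : (a + 1) * (12 * l) + r = a * (12 * l) + r + 12 * l := by ring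
    rw [h3, h4, pow_add]
    calc tauR (12 * l) (12 * l) ^ (a * (a - 1) / 2) * tauR (12 * l) (12 * l) ^ a
        ≤ (T (a * (12 * l) + r) * T (12 * l)) *
          (tauR (12 * l) (12 * l) ^ a * tauR (12 * l) r) := by
          refine Nat.mul_le_mul ?_ ?_
          · calc _ ≤ T (a * (12 * l) + r) * 1 := by rw [mul_one]; exact ih
              _ ≤ _ := Nat.mul_le_mul_left _ hTL
          · calc _ = tauR (12 * l) (12 * l) ^ a * 1 := by rw [mul_one]
              _ ≤ _ := Nat.mul_le_mul_left _ hrect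
      _ ≤ (T (a * (12 * l) + r) * T (12 * l)) * tauR (12 * l) (a * (12 * l) + r) :=
          Nat.mul_le_mul_left _ h2
      _ ≤ _ := h1

theorem one_le_tauR_12_12 : 1 ≤ tauR 12 12 := one_le_tauR_mul 2 12 (by norm_num)

theorem T_add_twelve (r a : ℕ) (hr : r ≠ 1) (hTr : 1 ≤ T r) : 1 ≤ T (a * 12 + r) :=
  (one_le_pow₀ one_le_tauR_12_12).trans (T_mul_add 12 r a (dvd_refl _) T_12 hr hTr)

/-- Every admissible triangular array has a tiling. -/
theorem one_le_T {N : ℕ} (h : Admissible N) : 1 ≤ T N := by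
  have hN : N / 12 * 12 + N % 12 = N := by omega
  rw [← hN]
  rcases h with h | h | h | h <;> rw [h]
  · exact T_add_twelve 0 _ (by norm_num) (by rw [T_0])
  · exact T_add_twelve 2 _ (by norm_num) T_2
  · exact T_add_twelve 9 _ (by norm_num) T_9
  · exact T_add_twelve 11 _ (by norm_num) T_11

/-- The strips of width six satisfy the Padovan inequality. -/
theorem tauR_strip (n : ℕ) : tauR (n + 1) 6 + tauR n 6 ≤ tauR (n + 3) 6 := by
  have hu : up (0, 0) ⊆ Rect (n + 3) 6 := by
    intro p hp
    rw [mem_up] at hp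
    rw [mem_Rect]
    rcases hp with rfl | rfl | rfl <;> simp <;> omega
  have hd : dn (0, 0) ⊆ Rect (n + 3) 6 := by
    intro p hp
    rw [mem_dn] at hp
    rw [mem_Rect]
    rcases hp with rfl | rfl | rfl <;> simp <;> omega
  refine le_trans (Nat.add_le_add ?_ ?_) (tau_branch_le hu hd)
  · have hdis : Disjoint (Rect 2 6 \ up (0, 0))
        ((Rect (n + 1) 6).image fun q => q + ((2 : ℤ), (0 : ℤ))) := by
      rw [Finset.disjoint_left]
      intro p hp hq
      rw [Finset.mem_sdiff, mem_Rect] at hp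
      rw [mem_image_translate, mem_Rect] at hq
      simp only at hq
      push_cast at hp
      omega
    have heq : Rect (n + 3) 6 \ up (0, 0) = (Rect 2 6 \ up (0, 0)) ∪
        ((Rect (n + 1) 6).image fun q => q + ((2 : ℤ), (0 : ℤ))) := by
      ext p
      rw [Finset.mem_union, Finset.mem_sdiff, Finset.mem_sdiff, mem_image_translate, mem_Rect,
        mem_Rect, mem_Rect, mem_up]
      simp only [Prod.ext_iff]
      push_cast
      omega
    rw [heq]
    refine le_trans ?_ (tau_mul_le hdis)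
    calc tauR (n + 1) 6 = 1 * tauR (n + 1) 6 := (one_mul _).symm
      _ ≤ _ := Nat.mul_le_mul tau_2_6_sdiff (tau_translate _ _)
  · have hdis : Disjoint (Rect 3 6 \ dn (0, 0))
        ((Rect n 6).image fun q => q + ((3 : ℤ), (0 : ℤ))) := by
      rw [Finset.disjoint_left]
      intro p hp hq
      rw [Finset.mem_sdiff, mem_Rect] at hp
      rw [mem_image_translate, mem_Rect] at hq
      simp only at hq
      push_cast at hp
      omega
    have heq : Rect (n + 3) 6 \ dn (0, 0) = (Rect 3 6 \ dn (0, 0)) ∪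
        ((Rect n 6).image fun q => q + ((3 : ℤ), (0 : ℤ))) := by
      ext p
      rw [Finset.mem_union, Finset.mem_sdiff, Finset.mem_sdiff, mem_image_translate, mem_Rect,
        mem_Rect, mem_Rect, mem_dn]
      simp only [Prod.ext_iff]
      push_cast
      omega
    rw [heq]
    refine le_trans ?_ (tau_mul_le hdis)
    calc tauR n 6 = 1 * tauR n 6 := (one_mul _).symm
      _ ≤ _ := Nat.mul_le_mul tau_3_6_sdiff (tau_translate _ _)

/-- Lower bound for the strips of width six by powers of the plastic number. -/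
theorem strip_lower {ρ : ℝ} (h1 : 1 < ρ) (hρ : ρ ^ 3 = ρ + 1) (n : ℕ) :
    ρ ^ n ≤ tauR (n + 2) 6 * ρ ^ 2 := by
  have h0 : 0 < ρ := by linarith
  induction n using Nat.strong_induction_on with
  | _ n ih =>
    match n with
    | 0 =>
      have : (1 : ℝ) ≤ tauR 2 6 := by exact_mod_cast one_le_tauR_six' 2 (by norm_num)
      have h2 : 1 ≤ ρ ^ 2 := one_le_pow₀ h1.le
      simpa using one_le_mul_of_one_le_of_one_le this h2
    | 1 =>
      have : (1 : ℝ) ≤ tauR 3 6 := by exact_mod_cast one_le_tauR_six' 3 (by norm_num)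
      have h2 : ρ ^ 1 ≤ ρ ^ 2 := pow_le_pow_right₀ h1.le (by norm_num)
      calc ρ ^ 1 ≤ 1 * ρ ^ 2 := by rw [one_mul]; exact h2
        _ ≤ _ := by
          refine mul_le_mul_of_nonneg_right ?_ (by positivity)
          exact this
    | 2 =>
      have : (1 : ℝ) ≤ tauR 4 6 := by exact_mod_cast one_le_tauR_six' 4 (by norm_num)
      calc ρ ^ 2 = 1 * ρ ^ 2 := by rw [one_mul]
        _ ≤ _ := mul_le_mul_of_nonneg_right this (by positivity)
    | n + 3 =>
      have a1 := ih n (by omega)
      have a2 := ih (n + 1) (by omega)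
      have a3 := tauR_strip (n + 2)
      have a4 : (tauR (n + 2 + 1) 6 : ℝ) + tauR (n + 2) 6 ≤ tauR (n + 2 + 3) 6 := by
        exact_mod_cast a3
      have e1 : n + 3 + 2 = n + 2 + 3 := by omega
      have e2 : n + 1 + 2 = n + 2 + 1 := by omega
      rw [e1]
      rw [e2] at a2
      calc ρ ^ (n + 3) = ρ ^ n * ρ ^ 3 := by rw [pow_add]
        _ = ρ ^ (n + 1) + ρ ^ n := by rw [hρ]; ring
        _ ≤ tauR (n + 2 + 1) 6 * ρ ^ 2 + tauR (n + 2) 6 * ρ ^ 2 := add_le_add a2 a1
        _ = (tauR (n + 2 + 1) 6 + tauR (n + 2) 6) * ρ ^ 2 := by ring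
        _ ≤ _ := mul_le_mul_of_nonneg_right a4 (by positivity)

end Pool.Agent.Lib.MP_243357_co
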