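import Pool.Agent.Lib.MP_243357_co.Basic

/-!
Upper bound for the number of tilings: golden ratio to the number of tiles.
-/

namespace Pool.Agent.Lib.MP_243357_co

/-- `p` is the lexicographic minimum of `R`. -/
def IsMin (R : Finset Pt) (p : Pt) : Prop :=
  p ∈ R ∧ ∀ q ∈ R, p.1 < q.1 ∨ (p.1 = q.1 ∧ p.2 ≤ q.2)

theorem exists_isMin {R : Finset Pt} (h : R.Nonempty) : ∃ p, IsMin R p := by
  obtain ⟨a, ha, hmin⟩ := Finset.exists_min_image R (fun q => toLex q) h
  refine ⟨a, ha, fun q hq => ?_⟩
  have := hmin q hq
  rw [Prod.Lex.toLex_le_toLex] at this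
  exact this

/-- A tiling uses the up or down triangle at the minimum. -/
theorem IsTiling.min_cases {R : Finset Pt} {P : Finset (Finset Pt)} (hP : IsTiling R P)
    {p : Pt} (hp : IsMin R p) : up p ∈ P ∨ dn p ∈ P := by
  obtain ⟨t, ⟨ht, hpt⟩, -⟩ := hP.2 p hp.1
  obtain ⟨q, hq⟩ := (hP.1 t ht).1
  have hsub := (hP.1 t ht).2
  rcases hq with rfl | rfl
  · have hqR := hsub (self_mem_up q)
    have hlt := hp.2 q hqR
    rw [mem_up] at hpt
    rcases hpt with h | h | h
    · subst h; exact Or.inl ht
    · exfalso; rw [h] at hlt; simp only at hlt; omega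
    · exfalso; rw [h] at hlt; simp only at hlt; omega
  · have hqR := hsub (self_mem_dn q)
    have hlt := hp.2 q hqR
    rw [mem_dn] at hpt
    rcases hpt with h | h | h
    · subst h; exact Or.inr ht
    · exfalso; rw [h] at hlt; simp only at hlt; omega
    · exfalso; rw [h] at hlt; simp only at hlt; omega

theorem ncard_with_le {R t : Finset Pt} (ht : IsSmall t) :
    {P : Finset (Finset Pt) | IsTiling R P ∧ t ∈ P}.ncard ≤ tau (R \ t) := by
  by_cases h : t ⊆ R
  · rw [ncard_with ht h]
  · have : {P : Finset (Finset Pt) | IsTiling R P ∧ t ∈ P} = ∅ := by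
      ext P
      simp only [Set.mem_ofPred_eq, Set.mem_empty_iff_false, iff_false]
      rintro ⟨hP, htP⟩
      exact h (hP.1 t htP).2
    rw [this, Set.ncard_empty]
    exact Nat.zero_le _

theorem ncard_with_zero {R t : Finset Pt} (h : ¬ t ⊆ R) :
    {P : Finset (Finset Pt) | IsTiling R P ∧ t ∈ P}.ncard = 0 := by
  have : {P : Finset (Finset Pt) | IsTiling R P ∧ t ∈ P} = ∅ := by
    ext P
    simp only [Set.mem_ofPred_eq, Set.mem_empty_iff_false, iff_false]
    rintro ⟨hP, htP⟩
    exact h (hP.1 t htP).2
  rw [this, Set.ncard_empty]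

theorem tau_le_add {R : Finset Pt} {p : Pt} (hp : IsMin R p) :
    tau R ≤ {P : Finset (Finset Pt) | IsTiling R P ∧ up p ∈ P}.ncard +
      {P : Finset (Finset Pt) | IsTiling R P ∧ dn p ∈ P}.ncard := by
  refine le_trans ?_ (Set.ncard_union_le _ _)
  refine Set.ncard_le_ncard ?_ (((finite_tilings R).subset fun P h => h.1).union
    ((finite_tilings R).subset fun P h => h.1))
  intro P hP
  rcases hP.min_cases hp with h | h
  · exact Or.inl ⟨hP, h⟩
  · exact Or.inr ⟨hP, h⟩

theorem tau_le_up_or {R : Finset Pt} {p : Pt} (hp : IsMin R p) :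
    tau R ≤ (if up p ⊆ R then tau (R \ up p) else 0) +
      (if dn p ⊆ R then tau (R \ dn p) else 0) := by
  refine (tau_le_add hp).trans (Nat.add_le_add ?_ ?_)
  · split_ifs with h
    · exact ncard_with_le ⟨p, Or.inl rfl⟩
    · rw [ncard_with_zero h]
  · split_ifs with h
    · exact ncard_with_le ⟨p, Or.inr rfl⟩
    · rw [ncard_with_zero h]

/-- The number of tilings is at most the golden ratio to the power of the number of tiles. -/
theorem tau_le_golden (R : Finset Pt) :
    (tau R : ℝ) ≤ Real.goldenRatio ^ ((R.card : ℝ) / 3) := by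
  have hg : (0 : ℝ) < Real.goldenRatio := Real.goldenRatio_pos
  have hg1 : (1 : ℝ) ≤ Real.goldenRatio := Real.one_lt_goldenRatio.le
  have hmono : ∀ a b : ℝ, a ≤ b → Real.goldenRatio ^ a ≤ Real.goldenRatio ^ b := fun a b h =>
    Real.rpow_le_rpow_of_exponent_le hg1 h
  induction hn : R.card using Nat.strong_induction_on generalizing R with
  | _ n ih =>
  rcases R.eq_empty_or_nonempty with rfl | hne
  · subst hn
    simp [tau_empty]
  · obtain ⟨p, hp⟩ := exists_isMin hne
    have hle := tau_le_up_or hp
    have hcu : up p ⊆ R → (R \ up p).card = n - 3 ∧ 3 ≤ n := by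
      intro h
      have := Finset.card_sdiff_of_subset h
      have h3 := Finset.card_le_card h
      rw [card_up] at this h3
      omega
    have hcd : dn p ⊆ R → (R \ dn p).card = n - 3 ∧ 3 ≤ n := by
      intro h
      have := Finset.card_sdiff_of_subset h
      have h3 := Finset.card_le_card h
      rw [card_dn] at this h3
      omega
    have hdn3 : dn p ⊆ R → (tau (R \ dn p) : ℝ) ≤ Real.goldenRatio ^ (((n : ℝ) - 3) / 3) := by
      intro h
      obtain ⟨h1, h2⟩ := hcd h
      have := ih (n - 3) (by omega) (R \ dn p) h1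
      rw [Nat.cast_sub h2] at this
      exact_mod_cast this
    have hup3 : up p ⊆ R → (tau (R \ up p) : ℝ) ≤ Real.goldenRatio ^ (((n : ℝ) - 3) / 3) := by
      intro h
      obtain ⟨h1, h2⟩ := hcu h
      have := ih (n - 3) (by omega) (R \ up p) h1
      rw [Nat.cast_sub h2] at this
      exact_mod_cast this
    by_cases hd : dn p ⊆ R
    · by_cases hu : up p ⊆ R
      · rw [if_pos hd, if_pos hu] at hle
        -- the second branch is forced
        have hmin : IsMin (R \ up p) (p.1, p.2 + 1) := by
          refine ⟨?_, ?_⟩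
          · rw [Finset.mem_sdiff]
            refine ⟨hd (by simp [mem_dn]), ?_⟩
            rw [mem_up]
            simp [Prod.ext_iff]
          · intro q hq
            rw [Finset.mem_sdiff] at hq
            have h1 := hp.2 q hq.1
            have h2 : q ≠ p := by
              rintro rfl
              exact hq.2 (self_mem_up q)
            simp only
            rcases h1 with h1 | ⟨h1, h1'⟩
            · exact Or.inl h1
            · refine Or.inr ⟨h1, ?_⟩
              have : p.2 ≠ q.2 := fun h => h2 (Prod.ext h1.symm h.symm)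
              omega
        have hle2 := tau_le_up_or hmin
        have hnu : ¬ up (p.1, p.2 + 1) ⊆ R \ up p := by
          intro h
          have : (p.1 + 1, p.2 + 1) ∈ R \ up p := h (by simp [mem_up])
          rw [Finset.mem_sdiff] at this
          exact this.2 (by simp [mem_up])
        rw [if_neg hnu, zero_add] at hle2
        obtain ⟨h1, h2⟩ := hcu hu
        have hb : (tau (R \ up p) : ℝ) ≤ Real.goldenRatio ^ (((n : ℝ) - 6) / 3) := by
          by_cases hdd : dn (p.1, p.2 + 1) ⊆ R \ up p
          · rw [if_pos hdd] at hle2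
            have hc := Finset.card_sdiff_of_subset hdd
            have h3 := Finset.card_le_card hdd
            rw [card_dn, h1] at hc h3
            have := ih (n - 3 - 3) (by omega) _ hc
            rw [Nat.cast_sub (by omega), Nat.cast_sub h2] at this
            refine le_trans (by exact_mod_cast hle2) (this.trans (hmono _ _ ?_))
            push_cast
            linarith
          · rw [if_neg hdd] at hle2
            have : tau (R \ up p) = 0 := by omega
            rw [this, Nat.cast_zero]
            positivity
        have hsum : Real.goldenRatio ^ (((n : ℝ) - 3) / 3) + Real.goldenRatio ^ (((n : ℝ) - 6) / 3)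
            = Real.goldenRatio ^ ((n : ℝ) / 3) := by
          have e1 : Real.goldenRatio ^ ((n : ℝ) / 3) =
              Real.goldenRatio ^ (((n : ℝ) - 6) / 3) * Real.goldenRatio ^ 2 := by
            rw [← Real.rpow_natCast Real.goldenRatio 2, ← Real.rpow_add hg]
            congr 1; push_cast; ring
          have e2 : Real.goldenRatio ^ (((n : ℝ) - 3) / 3) =
              Real.goldenRatio ^ (((n : ℝ) - 6) / 3) * Real.goldenRatio := by
            nth_rewrite 3 [← Real.rpow_one Real.goldenRatio]
            rw [← Real.rpow_add hg]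
            congr 1; ring
          rw [e1, e2, Real.goldenRatio_sq]
          ring
        have hle' : (tau R : ℝ) ≤ tau (R \ up p) + tau (R \ dn p) := by exact_mod_cast hle
        have := hdn3 hd
        linarith
      · rw [if_pos hd, if_neg hu, zero_add] at hle
        have hle' : (tau R : ℝ) ≤ tau (R \ dn p) := by exact_mod_cast hle
        exact hle'.trans ((hdn3 hd).trans (hmono _ _ (by linarith)))
    · rw [if_neg hd, add_zero] at hle
      by_cases hu : up p ⊆ R
      · rw [if_pos hu] at hle
        have hle' : (tau R : ℝ) ≤ tau (R \ up p) := by exact_mod_cast hle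
        exact hle'.trans ((hup3 hu).trans (hmono _ _ (by linarith)))
      · rw [if_neg hu] at hle
        have : tau R = 0 := by omega
        rw [this, Nat.cast_zero]
        positivity

theorem mem_Delta (N : ℕ) (p : Pt) :
    p ∈ Delta N ↔ 0 ≤ p.2 ∧ p.2 ≤ p.1 ∧ p.1 < N := by
  simp only [Delta, Finset.mem_filter, Finset.mem_product, Finset.mem_Ico]
  constructor
  · rintro ⟨⟨⟨h1, h2⟩, h3, h4⟩, h5⟩; exact ⟨h3, h5, h2⟩
  · rintro ⟨h1, h2, h3⟩; exact ⟨⟨⟨by omega, h3⟩, h1, by omega⟩, h2⟩

theorem card_Delta (N : ℕ) : 2 * (Delta N).card = N * (N + 1) := by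
  induction N with
  | zero =>
    have : Delta 0 = ∅ := by
      ext p; rw [mem_Delta]; simp; intros; omega
    simp [this]
  | succ N ih =>
    have hd : Disjoint (Delta N) ((Finset.range (N + 1)).image fun j : ℕ => ((N : ℤ), (j : ℤ))) := by
      rw [Finset.disjoint_left]
      intro p hp hq
      rw [mem_Delta] at hp
      obtain ⟨j, -, rfl⟩ := Finset.mem_image.1 hq
      simp at hp
    have hu : Delta (N + 1) =
        Delta N ∪ ((Finset.range (N + 1)).image fun j : ℕ => ((N : ℤ), (j : ℤ))) := by
      ext p
      rw [Finset.mem_union, mem_Delta, mem_Delta, Finset.mem_image]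
      constructor
      · rintro ⟨h1, h2, h3⟩
        push_cast at h3
        by_cases h : p.1 < N
        · exact Or.inl ⟨h1, h2, h⟩
        · refine Or.inr ⟨p.2.toNat, ?_, ?_⟩
          · rw [Finset.mem_range]; omega
          · refine Prod.ext ?_ ?_
            · simp; omega
            · simp; omega
      · rintro (⟨h1, h2, h3⟩ | ⟨j, hj, rfl⟩)
        · exact ⟨h1, h2, by push_cast; omega⟩
        · rw [Finset.mem_range] at hj
          simp only
          push_cast
          omega
    rw [hu, Finset.card_union_of_disjoint hd, Finset.card_image_of_injective, Finset.card_range,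
      mul_add, ih]
    · ring
    · intro a b h
      simpa using congrArg Prod.snd h

/-- `log T(N) ≤ (log φ / 6) N (N+1)`. -/
theorem log_T_le (N : ℕ) :
    Real.log (T N) ≤ Real.log Real.goldenRatio / 6 * (N * (N + 1)) := by
  have hg1 : (1 : ℝ) < Real.goldenRatio := Real.one_lt_goldenRatio
  have hlog : 0 < Real.log Real.goldenRatio := Real.log_pos hg1
  rcases Nat.eq_zero_or_pos (T N) with h | h
  · rw [h, Nat.cast_zero, Real.log_zero]; positivity
  · have h1 := tau_le_golden (Delta N)
    have h2 := Real.log_le_log (by exact_mod_cast h) h1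
    rw [Real.log_rpow (by linarith)] at h2
    have h3 : (2 : ℝ) * (Delta N).card = N * (N + 1) := by exact_mod_cast card_Delta N
    have : ((Delta N).card : ℝ) / 3 = (N * (N + 1) : ℝ) / 6 := by linarith
    rw [this] at h2
    calc Real.log (T N) ≤ _ := h2
      _ = _ := by ring

end Pool.Agent.Lib.MP_243357_co
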